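import Pool.Agent.Helper71.AG2.Goals
import Pool.Agent.Helper46.KG.Final

set_option autoImplicit false

namespace Pool.Agent.Helper42.AG2

open Pool.Agent.Helper32.AG

universe u

theorem num1 (k : ℕ) (hk : 1 ≤ k) : 3 * 2 ^ k ≤ 3 ^ k + 3 := by
  induction k, hk using Nat.le_induction with
  | base => norm_num
  | succ n hn ih =>
    have h1 : 2 ^ (n + 1) = 2 * 2 ^ n := by ring
    have h2 : 3 ^ (n + 1) = 3 * 3 ^ n := by ring
    have h3 : 3 ^ 1 ≤ 3 ^ n := Nat.pow_le_pow_right (by norm_num) hn
    omega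

theorem num2 (u : ℕ) : u + 1 ≤ 3 ^ u := by
  have : u < 3 ^ u := Nat.lt_pow_self (by norm_num)
  omega

theorem num3 (u : ℕ) : 2 * (2 * u + 1) ≤ 3 * 3 ^ u := by
  induction u with
  | zero => norm_num
  | succ n ih =>
    have h2 : 3 ^ (n + 1) = 3 * 3 ^ n := by ring
    have := num2 n
    omega

theorem num4 (m : ℕ) (hm : 3 ≤ m) : 3 * m ^ 2 ≤ 3 ^ m := by
  induction m, hm using Nat.le_induction with
  | base => norm_num
  | succ n hn ih =>
    have h2 : 3 ^ (n + 1) = 3 * 3 ^ n := by ring
    rw [h2]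
    nlinarith

theorem num5 (m u : ℕ) (hm : 1 ≤ m) : 3 * (m * (m * u + 1)) ≤ 3 ^ (m + u) := by
  rw [pow_add]
  rcases Nat.lt_or_ge m 3 with h | h
  · interval_cases m
    · have := num2 u
      omega
    · have := num3 u
      omega
  · have h1 := num4 m h
    have h2 := num2 u
    have h3 : m * u + 1 ≤ m * (u + 1) := by rw [mul_add]; omega
    calc 3 * (m * (m * u + 1)) ≤ 3 * (m * (m * (u + 1))) := by gcongr
      _ = 3 * m ^ 2 * (u + 1) := by ring
      _ ≤ 3 ^ m * 3 ^ u := Nat.mul_le_mul h1 h2

theorem num6 (m b kk : ℕ) (hm : 1 ≤ m) (hb : 1 ≤ b) (h : m * m + b ≤ m * kk + 1) :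
    3 * (m * b) ≤ 3 ^ kk := by
  have hmk : m ≤ kk := by
    by_contra hcon
    have h1 : kk + 1 ≤ m := by omega
    have h2 : m * (kk + 1) ≤ m * m := Nat.mul_le_mul_left m h1
    rw [mul_add] at h2
    omega
  obtain ⟨u, rfl⟩ := Nat.exists_eq_add_of_le hmk
  have h1 : b ≤ m * u + 1 := by
    rw [mul_add] at h
    omega
  calc 3 * (m * b) ≤ 3 * (m * (m * u + 1)) := by gcongr
    _ ≤ 3 ^ (m + u) := num5 m u hm

theorem base (hGrp : GrpStmt.{u}) : Pool.Agent.Helper71.AG2.BaseStmt.{u} := by
  intro G _ _ hG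
  rcases hG with hs | hm
  · have h1 : Nat.card G < 2 ^ k G := Helper46.KG.log_two_of_supersolvable G hs
    have h2 : 1 ≤ k G := by
      have : 0 < Nat.card (ConjClasses G) := Nat.card_pos
      exact this
    have h3 := num1 (k G) h2
    omega
  · obtain ⟨g1, -, g3⟩ := hGrp
    have h1 := g1 G (commutator G) hm
    have h2 : k (G ⧸ commutator G) = Nat.card (G ⧸ commutator G) := by
      refine g3 _ fun x y => ?_
      have : CommGroup (G ⧸ commutator G) := inferInstanceAs (CommGroup (Abelianization G))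
      induction x using QuotientGroup.induction_on with
      | H x =>
        induction y using QuotientGroup.induction_on with
        | H y => exact mul_comm (Abelianization.of x) (Abelianization.of y)
    have h3 : Nat.card (G ⧸ commutator G) = (commutator G).index := rfl
    rw [h2, h3] at h1
    have h4 : (commutator G).index * Nat.card (commutator G) = Nat.card G :=
      Subgroup.index_mul_card _
    have h5 : 1 ≤ (commutator G).index := Nat.one_le_iff_ne_zero.2 Subgroup.index_ne_zero_of_finite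
    have h6 : 1 ≤ Nat.card (commutator G) := Nat.card_pos
    have := num6 _ _ _ h5 h6 h1
    rw [h4] at this
    exact this

end Pool.Agent.Helper42.AG2
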